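import Pool.Agent.H525R4.Mono.Core

set_option autoImplicit false

/-!
# Monotone data structures: the counting argument, with free places

As in `Pool.Agent.H525R4.Mono.Core`, but the contents `g q c` of the place `c` may depend on the
query `q`, if `c` is not in `G`; such a place is free: there is another query `q'` for which `g q c`
is at least as large on all true inputs.
-/

namespace Pool.Agent.T2H60.MH

open Finset Pool.Agent.H525R4.Mono

section Core

variable {X C Q E B : Type} [Preorder X] [Fintype C] [Fintype Q] [DecidableEq Q] [Fintype E]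
  [DecidableEq E] [Fintype B]

variable (one : Q → E → X) (zero : Q → (E → B) → X) (al : Q → Q → B → Prop)

/-- A free place serves few elements. -/
theorem free_served [∀ q q', DecidablePred (al q q')] (g : X → ℝ) (hg : Monotone g)
    (hle : ∀ q ω q' e', al q q' (ω e') → one q' e' ≤ zero q ω)
    {L : ℕ} (hL : 1 ≤ L) {κ : ℝ} (hκ0 : 0 ≤ 1 - κ) (hκ1 : 0 ≤ κ)
    (hκ : ∀ q q', q ≠ q' →
      ((univ.filter fun β => ¬ al q q' β).card : ℝ) ≤ (1 - κ) * Fintype.card B)
    (q : Q) (hfree : ∃ q', q ≠ q' ∧ ∀ e, g (one q e) ≤ g (one q' e)) :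
    ((univ.filter fun ω : E → B => L ≤ (served g one q (zero q ω)).card).card : ℝ)
      ≤ (1 - κ) ^ L * Fintype.card (E → B) := by
  classical
  by_cases hLE : L ≤ Fintype.card E
  · obtain ⟨q', hqq, hge⟩ := hfree
    obtain ⟨θ, h1, h2⟩ := exists_rank (fun e => g (one q e)) hL hLE
    refine card_served_large one zero al g hg hle h1 (q' := q') (le_trans h2 (card_le_card ?_))
      le_rfl hκ0 hκ1 (hκ q q' hqq)
    intro e he
    simp only [mem_filter, mem_univ, true_and] at he ⊢
    exact le_trans he (hge e)
  · have : (univ.filter fun ω : E → B => L ≤ (served g one q (zero q ω)).card) = ∅ := by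
      apply filter_eq_empty_iff.mpr
      intro ω _ h
      have := card_le_univ (served g one q (zero q ω))
      omega
    rw [this]
    simp only [card_empty, Nat.cast_zero]
    positivity

/-- **The counting argument.** -/
theorem sum_served_le [Nonempty Q] [DecidableEq C] [∀ q q', DecidablePred (al q q')]
    (G : Finset C) (g : Q → C → X → ℝ) (hg : ∀ q c, Monotone (g q c))
    (hG : ∀ c ∈ G, ∀ q q', g q c = g q' c)
    (hfree : ∀ q, ∀ c ∉ G, ∃ q', q ≠ q' ∧ ∀ e, g q c (one q e) ≤ g q c (one q' e))
    (hle : ∀ q ω q' e', al q q' (ω e') → one q' e' ≤ zero q ω)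
    {L : ℕ} (hL : 1 ≤ L) {κ : ℝ} (hκ0 : 0 ≤ 1 - κ) (hκ1 : 0 ≤ κ)
    (hκ : ∀ q q', q ≠ q' →
      ((univ.filter fun β => ¬ al q q' β).card : ℝ) ≤ (1 - κ) * Fintype.card B)
    {W : ℕ} {ε : ℝ} (hε : (1 - κ) ^ L ≤ ε)
    (hW : ∀ c q,
      ((univ.filter fun ω : E → B => W < (served (g q c) one q (zero q ω)).card).card : ℝ)
        ≤ ε * Fintype.card (E → B))
    (reads : Q → (E → B) → Finset C) :
    ∑ q, ∑ ω, (((univ.filter fun e => ∃ c ∈ reads q ω,
        g q c (zero q ω) < g q c (one q e)).card : ℝ))
      ≤ L * ∑ q, ∑ ω, ((reads q ω).card : ℝ)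
        + (W * G.card + Fintype.card Q * Fintype.card E * Fintype.card C * ε)
            * Fintype.card (E → B) := by
  classical
  have hε0 : 0 ≤ ε := le_trans (by positivity) hε
  obtain ⟨q00⟩ := (inferInstance : Nonempty Q)
  choose own hown using fun c : C => exists_owner one zero al (g q00 c) (hg q00 c) hle hL hκ0 hκ1 hκ
  -- the bad labellings of a cell and a query
  let bad : C → Q → Finset (E → B) := fun c q => univ.filter fun ω =>
    if c ∈ G ∧ q = own c then W < (served (g q c) one q (zero q ω)).card
      else L ≤ (served (g q c) one q (zero q ω)).card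
  have hbad : ∀ c q, ((bad c q).card : ℝ) ≤ ε * Fintype.card (E → B) := by
    intro c q
    by_cases h : c ∈ G ∧ q = own c
    · simp only [bad, h, and_self, if_true]
      have := hW c (own c)
      convert this using 3
    · simp only [bad, h, if_false]
      have h2 : ((univ.filter fun ω : E → B => L ≤ (served (g q c) one q (zero q ω)).card).card : ℝ)
          ≤ (1 - κ) ^ L * Fintype.card (E → B) := by
        by_cases hc : c ∈ G
        · rw [hG c hc q q00]
          exact hown c q fun hq => h ⟨hc, hq⟩
        · exact free_served one zero al (g q c) (hg q c) hle hL hκ0 hκ1 hκ q (hfree q c hc)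
      refine le_trans (le_trans (le_of_eq ?_) h2)
        (mul_le_mul_of_nonneg_right hε (by positivity))
      congr 2
  have hserved : ∀ c q ω, ((served (g q c) one q (zero q ω)).card : ℝ)
      ≤ L + (if c ∈ G ∧ q = own c then (W : ℝ) else 0)
        + Fintype.card E * (if ω ∈ bad c q then (1 : ℝ) else 0) := by
    intro c q ω
    have h3 : (0 : ℝ) ≤ L := by positivity
    by_cases hb : ω ∈ bad c q
    · have h1 : ((served (g q c) one q (zero q ω)).card : ℝ) ≤ Fintype.card E := by
        exact_mod_cast card_le_univ _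
      have h2 : (0 : ℝ) ≤ if c ∈ G ∧ q = own c then (W : ℝ) else 0 := by split_ifs <;> positivity
      simp only [hb, if_true, mul_one]
      linarith
    · simp only [hb, if_false, mul_zero, add_zero]
      by_cases h : c ∈ G ∧ q = own c
      · simp only [h, and_self, if_true]
        have hb' : ¬ (W < (served (g q c) one q (zero q ω)).card) := by
          intro h'
          apply hb
          simp only [bad, mem_filter, mem_univ, true_and]
          rw [if_pos h]
          exact h'
        push Not at hb'
        have h5 : ((served (g q c) one q (zero q ω)).card : ℝ) ≤ W := by exact_mod_cast hb'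
        rw [h.2] at h5
        linarith
      · simp only [h, if_false, add_zero]
        have hb' : ¬ (L ≤ (served (g q c) one q (zero q ω)).card) := by
          intro h'
          apply hb
          simp only [bad, mem_filter, mem_univ, true_and]
          rw [if_neg h]
          exact h'
        push Not at hb'
        exact_mod_cast hb'.le
  have hpoint : ∀ q ω, ((univ.filter fun e => ∃ c ∈ reads q ω,
        g q c (zero q ω) < g q c (one q e)).card : ℝ)
      ≤ L * ((reads q ω).card : ℝ) + (∑ c, if c ∈ G ∧ q = own c then (W : ℝ) else 0)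
        + Fintype.card E * ∑ c, (if ω ∈ bad c q then (1 : ℝ) else 0) := by
    intro q ω
    have h1 : (univ.filter fun e => ∃ c ∈ reads q ω, g q c (zero q ω) < g q c (one q e))
        ⊆ (reads q ω).biUnion fun c => served (g q c) one q (zero q ω) := by
      intro e he
      simp only [mem_filter, mem_univ, true_and] at he
      obtain ⟨c, hc, hlt⟩ := he
      rw [mem_biUnion]
      exact ⟨c, hc, mem_served.mpr hlt⟩
    have h2 : ((univ.filter fun e => ∃ c ∈ reads q ω,
        g q c (zero q ω) < g q c (one q e)).card : ℝ)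
        ≤ ∑ c ∈ reads q ω, ((served (g q c) one q (zero q ω)).card : ℝ) := by
      have := le_trans (card_le_card h1) card_biUnion_le
      exact_mod_cast this
    refine le_trans h2 (le_trans (sum_le_sum fun c _ => hserved c q ω) ?_)
    rw [sum_add_distrib, sum_add_distrib, sum_const, nsmul_eq_mul, ← mul_sum]
    have h3 : ∑ c ∈ reads q ω, (if c ∈ G ∧ q = own c then (W : ℝ) else 0)
        ≤ ∑ c, (if c ∈ G ∧ q = own c then (W : ℝ) else 0) :=
      sum_le_sum_of_subset_of_nonneg (subset_univ _) (fun c _ _ => by split_ifs <;> positivity)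
    have h4 : ∑ c ∈ reads q ω, (if ω ∈ bad c q then (1 : ℝ) else 0)
        ≤ ∑ c, (if ω ∈ bad c q then (1 : ℝ) else 0) :=
      sum_le_sum_of_subset_of_nonneg (subset_univ _) (fun c _ _ => by split_ifs <;> positivity)
    have h5 := mul_le_mul_of_nonneg_left h4 (by positivity : (0 : ℝ) ≤ Fintype.card E)
    linarith [mul_comm ((reads q ω).card : ℝ) (L : ℝ)]
  refine le_trans (sum_le_sum fun q _ => sum_le_sum fun ω _ => hpoint q ω) ?_
  simp only [sum_add_distrib]
  have hA : ∑ q : Q, ∑ ω : E → B, (L : ℝ) * ((reads q ω).card : ℝ)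
      = L * ∑ q, ∑ ω, ((reads q ω).card : ℝ) := by
    rw [mul_sum]; exact sum_congr rfl fun q _ => by rw [mul_sum]
  have hB : ∑ q : Q, ∑ _ω : E → B, ∑ c : C, (if c ∈ G ∧ q = own c then (W : ℝ) else 0)
      = W * G.card * Fintype.card (E → B) := by
    have : ∀ q : Q, ∑ _ω : E → B, ∑ c : C, (if c ∈ G ∧ q = own c then (W : ℝ) else 0)
        = (∑ c : C, (if c ∈ G ∧ q = own c then (W : ℝ) else 0)) * Fintype.card (E → B) := by
      intro q
      rw [sum_const, card_univ, nsmul_eq_mul, mul_comm]
    rw [sum_congr rfl fun q _ => this q, ← sum_mul, sum_comm]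
    congr 1
    have h2 : ∀ c : C, ∑ q : Q, (if c ∈ G ∧ q = own c then (W : ℝ) else 0) =
        if c ∈ G then (W : ℝ) else 0 := by
      intro c
      by_cases hc : c ∈ G <;> simp [hc]
    rw [sum_congr rfl fun c _ => h2 c, sum_ite_mem, univ_inter, sum_const, nsmul_eq_mul, mul_comm]
  have hC : ∑ q : Q, ∑ ω : E → B, (Fintype.card E : ℝ) * ∑ c : C, (if ω ∈ bad c q then (1 : ℝ) else 0)
      ≤ (Fintype.card Q * Fintype.card E * Fintype.card C * ε) * Fintype.card (E → B) := by
    have h1 : ∀ q : Q, ∑ ω : E → B, (Fintype.card E : ℝ) * ∑ c : C, (if ω ∈ bad c q then (1 : ℝ) else 0)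
        ≤ Fintype.card E * (Fintype.card C * (ε * Fintype.card (E → B))) := by
      intro q
      rw [← mul_sum, sum_comm]
      apply mul_le_mul_of_nonneg_left _ (by positivity)
      calc ∑ c : C, ∑ ω : E → B, (if ω ∈ bad c q then (1 : ℝ) else 0)
          = ∑ c : C, ((bad c q).card : ℝ) := by
            apply sum_congr rfl
            intro c _
            rw [sum_ite_mem, univ_inter, sum_const, nsmul_eq_mul, mul_one]
        _ ≤ ∑ _c : C, (ε * Fintype.card (E → B)) := sum_le_sum fun c _ => hbad c q
        _ = Fintype.card C * (ε * Fintype.card (E → B)) := by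
            rw [sum_const, card_univ, nsmul_eq_mul]
    refine le_trans (sum_le_sum fun q _ => h1 q) ?_
    rw [sum_const, card_univ, nsmul_eq_mul]
    apply le_of_eq; ring
  rw [hA, hB]
  linarith [hC]

end Core

end Pool.Agent.T2H60.MH
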