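import Mathlib

set_option autoImplicit false

/-!
# Monotone data structures for SetIntersection with free memory: the model
-/

open Finset

namespace Pool.Agent.T2H60.MH

/-- The places which a query can read: `s` cells and, for each of its two sets, `r` free places. -/
abbrev Place (s r : ℕ) : Type := Fin s ⊕ (Fin 2 × Fin r)

/-- The first (`a = 0`) or the second (`a = 1`) set of the query `q`. -/
def setOf {m : ℕ} (q : Fin m × Fin m) (a : Fin 2) : Fin m := if a = 0 then q.1 else q.2

/-- A monotone data structure for families of `m` subsets of a universe with `n` elements.
`cell c F` is the real number in cell `c` after the preprocessing of the family `F`, an arbitrary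
nondecreasing function of `F`. In addition every query `q = (i, j)` has `2 r` free places: the
places `(0, c)` contain arbitrary nondecreasing functions `free q 0 c` of the family which do
not depend on the set `i`, and the places `(1, c)` contain arbitrary nondecreasing functions
`free q 1 c` of the family which do not depend on the set `j`. If `M` are the contents of the
cells and of the free places, then the query reads the places `reads q M` and reports the set
`answer q M`; the places to be read may depend on what was read before (adaptive queries,
even nondeterministic ones: the only condition is `answer_reads`, the answer is determined by the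
contents of the places read), and the answer is a nondecreasing function of the contents. -/
structure FreeDS (m n s r : ℕ) where
  /-- the contents of the cells -/
  cell : Fin s → (Fin m → Finset (Fin n)) → ℝ
  cell_mono : ∀ c, Monotone (cell c)
  /-- the contents of the free places -/
  free : Fin m × Fin m → Fin 2 → Fin r → (Fin m → Finset (Fin n)) → ℝ
  free_mono : ∀ q a c, Monotone (free q a c)
  free_indep : ∀ q a c F F', (∀ l, l ≠ setOf q a → F l = F' l) → free q a c F = free q a c F'
  /-- the places read -/
  reads : Fin m × Fin m → (Place s r → ℝ) → Finset (Place s r)
  /-- the set reported -/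
  answer : Fin m × Fin m → (Place s r → ℝ) → Finset (Fin n)
  answer_mono : ∀ q, Monotone (answer q)
  answer_reads : ∀ q M M', (∀ c ∈ reads q M, M' c = M c) → answer q M' = answer q M

/-- The contents of the cells and of the free places of the query `q` for the family `F`. -/
def FreeDS.mem {m n s r : ℕ} (D : FreeDS m n s r) (F : Fin m → Finset (Fin n))
    (q : Fin m × Fin m) : Place s r → ℝ
  | .inl c => D.cell c F
  | .inr c => D.free q c.1 c.2 F

/-- The set reported for the query `q` on the family `F`. -/
def FreeDS.out {m n s r : ℕ} (D : FreeDS m n s r) (F : Fin m → Finset (Fin n))
    (q : Fin m × Fin m) : Finset (Fin n) := D.answer q (D.mem F q)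

/-- The number of places read for the query `q` on the family `F`. -/
def FreeDS.cost {m n s r : ℕ} (D : FreeDS m n s r) (F : Fin m → Finset (Fin n))
    (q : Fin m × Fin m) : ℕ := (D.reads q (D.mem F q)).card

/-- The random monotone data structure `D` (it is `D ϖ` with probability `p ϖ`) solves
SetIntersection with advantage `δ` and query time `C * (T + op)`: for every family and every query
`q = (i, j)`, `i ≠ j`, every element is reported correctly (it is reported iff it is in both sets)
with probability at least `1 / 2 + δ`, and the expected number of places read is at most
`C * (T + op)`, `op` the size of the intersection. -/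
def Solves {m n s r : ℕ} {Ω : Type} [Fintype Ω] (p : Ω → ℝ) (D : Ω → FreeDS m n s r)
    (δ C T : ℝ) : Prop :=
  (∀ ϖ, 0 ≤ p ϖ) ∧ ∑ ϖ, p ϖ = 1 ∧
  ∀ (F : Fin m → Finset (Fin n)) (q : Fin m × Fin m), q.1 ≠ q.2 →
    (∀ e, 1 / 2 + δ ≤ ∑ ϖ with (e ∈ (D ϖ).out F q ↔ e ∈ F q.1 ∩ F q.2), p ϖ) ∧
    ∑ ϖ, p ϖ * (D ϖ).cost F q ≤ C * (T + (F q.1 ∩ F q.2).card)

end Pool.Agent.T2H60.MH
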