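import Pool.Agent.T2H60.MH.Rand
import Pool.Agent.T2H60.MH.Defs
import Pool.Agent.H525R4.Mono.Families

set_option autoImplicit false

/-!
# Monotone data structures for SetIntersection with free memory: the lower bound
-/

namespace Pool.Agent.T2H60.MH

open Finset Pool.Agent.H525R4.Mono

/-- the query as a pair of indices -/
def qq {h : ℕ} (q : Fin 2 → Fin h) : Fin (2 * h) × Fin (2 * h) := (idx 0 (q 0), idx 1 (q 1))

theorem setOf_qq {h : ℕ} (q : Fin 2 → Fin h) (a : Fin 2) : setOf (qq q) a = idx a (q a) := by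
  unfold setOf qq
  rcases Fin.exists_fin_two.1 ⟨a, rfl⟩ with h | h
  · subst h; rfl
  · subst h; rfl

/-- A function which does not depend on one set of the query. -/
theorem indep_le {h n : ℕ} (hh : 2 ≤ h) (q : Fin 2 → Fin h) (a : Fin 2)
    (g : (Fin (2 * h) → Finset (Fin n)) → ℝ) (hg : Monotone g)
    (hind : ∀ F F', (∀ l, l ≠ idx a (q a) → F l = F' l) → g F = g F') :
    ∃ q', q ≠ q' ∧ ∀ e, g (fone q e) ≤ g (fone q' e) := by
  classical
  obtain ⟨i, hi⟩ : ∃ i : Fin h, i ≠ q a := by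
    by_cases h0 : q a = ⟨0, by omega⟩
    · exact ⟨⟨1, by omega⟩, by rw [h0]; intro h1; rw [Fin.mk.injEq] at h1; omega⟩
    · exact ⟨⟨0, by omega⟩, fun h1 => h0 h1.symm⟩
  refine ⟨Function.update q a i, fun h1 => hi ?_, fun e => ?_⟩
  · have := congrFun h1 a
    rw [Function.update_self] at this
    exact this.symm
  · calc g (fone q e) = g (Function.update (fone q e) (idx a (q a)) ∅) := by
          apply hind
          intro l hl
          rw [Function.update_of_ne hl]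
      _ ≤ g (fone (Function.update q a i) e) := by
          apply hg
          intro l
          by_cases hl : l = idx a (q a)
          · rw [hl, Function.update_self]
            exact empty_subset _
          · rw [Function.update_of_ne hl]
            unfold fone
            split_ifs with h1 h2
            · exact le_rfl
            · exfalso
              apply h2
              obtain ⟨a', ha'⟩ := h1
              have hne : a' ≠ a := by
                rintro rfl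
                exact hl ha'
              exact ⟨a', by rw [ha', Function.update_of_ne hne]⟩
            · exact empty_subset _
            · exact le_rfl

open Classical in
/-- The inequality for a structure on `2 h` sets. -/
theorem solves_core {h n s r : ℕ} (hh : 2 ≤ h) {Ω : Type} [Fintype Ω] (p : Ω → ℝ)
    (D : Ω → FreeDS (2 * h) n s r) {δ t b : ℝ} (hδ : 0 ≤ δ) (hb : 0 ≤ b)
    (hp : ∀ ϖ, 0 ≤ p ϖ) (hp1 : ∑ ϖ, p ϖ = 1)
    (hcor : ∀ (F : Fin (2 * h) → Finset (Fin n)) (q : Fin (2 * h) × Fin (2 * h)), q.1 ≠ q.2 →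
      ∀ e, 1 / 2 + δ ≤ ∑ ϖ with (e ∈ (D ϖ).out F q ↔ e ∈ F q.1 ∩ F q.2), p ϖ)
    (hcost : ∀ (F : Fin (2 * h) → Finset (Fin n)) (q : Fin (2 * h) × Fin (2 * h)), q.1 ≠ q.2 →
      ∑ ϖ, p ϖ * (D ϖ).cost F q ≤ t + b * (F q.1 ∩ F q.2).card)
    {L R : ℕ} (hL : 1 ≤ L) (hR : 1 ≤ R) :
    (h : ℝ) ^ 2 * (2 * δ * ((1 - 1 / (R : ℝ)) * n) - (2 * L : ℕ) * (t + b * (1 / (R : ℝ) * n))
      - n * (s + 2 * r) * (1 / 2 : ℝ) ^ L) ≤ (R * L : ℕ) * s := by
  have : Nonempty (Fin h) := ⟨⟨0, by omega⟩⟩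
  have : Nonempty (Fin R) := ⟨⟨0, hR⟩⟩
  have hR' : (1 : ℝ) ≤ R := by exact_mod_cast hR
  have hR1 : (0 : ℝ) ≤ 1 - 1 / (R : ℝ) := by
    rw [sub_nonneg, div_le_one (by linarith)]; exact hR'
  have hne : ∀ q : Fin 2 → Fin h, (qq q).1 ≠ (qq q).2 := by
    intro q heq
    have := (idx_inj.mp heq).1
    exact absurd this (by decide)
  have hall : ∀ (F : Fin (2 * h) → Finset (Fin n)) (q : Fin 2 → Fin h) (e : Fin n),
      (∀ a, e ∈ F (idx a (q a))) ↔ e ∈ F (qq q).1 ∩ F (qq q).2 := by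
    intro F q e
    rw [Fin.forall_fin_two, mem_inter]
    rfl
  have hfull : ∀ (q : Fin 2 → Fin h) (ω : Fin n → Fin 2 × Fin R),
      (fzero (abR 2 R) q ω (qq q).1 ∩ fzero (abR 2 R) q ω (qq q).2)
        = univ.filter fun e => abR 2 R (ω e) = none := by
    intro q ω
    ext e
    rw [← hall]
    simp only [mem_filter, mem_univ, true_and]
    exact mem_fzero_iff _ q ω e
  let G : Finset (Place s r) := univ.image (Sum.inl : Fin s → Place s r)
  have hGc : G.card = s := by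
    simp only [G]
    rw [card_image_of_injective _ Sum.inl_injective, card_univ, Fintype.card_fin]
  have hmono : ∀ (ϖ : Ω) (q : Fin 2 → Fin h) (c : Place s r),
      Monotone fun F => (D ϖ).mem F (qq q) c := by
    intro ϖ q c F F' hF
    rcases c with c | c
    · exact (D ϖ).cell_mono c hF
    · exact (D ϖ).free_mono (qq q) c.1 c.2 hF
  have key := random_core' (X := Fin (2 * h) → Finset (Fin n)) (C := Place s r)
    (Q := Fin 2 → Fin h) (E := Fin n) (B := Fin 2 × Fin R) (Ω := Ω) fone (fzero (abR 2 R))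
    (al (abR 2 R)) (fun β => abR 2 R β = none) p hp hp1 G
    (fun ϖ q c F => (D ϖ).mem F (qq q) c) hmono
    (fun ϖ c hc q q' => by
      simp only [G, mem_image, mem_univ, true_and] at hc
      obtain ⟨c, rfl⟩ := hc
      rfl)
    (fun ϖ q c hc => by
      rcases c with c | c
      · exact absurd (mem_image_of_mem _ (mem_univ c)) hc
      · exact indep_le hh q c.1 _ (hmono ϖ q (Sum.inr c)) (fun F F' hF => by
          apply (D ϖ).free_indep (qq q) c.1 c.2 F F'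
          rw [setOf_qq]
          exact hF))
    (fun ϖ q M => (D ϖ).reads (qq q) M)
    (fun ϖ q e M => e ∈ (D ϖ).answer (qq q) M)
    (fun ϖ q e M M' hMM he => (D ϖ).answer_mono _ hMM he)
    (fun ϖ q e M M' hMM he => by rw [(D ϖ).answer_reads _ M M' hMM] at he; exact he)
    (fun q ω q' e' h => fone_le_fzero _ q ω q' e' h) (δ := δ)
    (fun q e => by
      refine ⟨_, fun ϖ hϖ => ?_, hcor (fone q e) (qq q) (hne q) e⟩
      rw [mem_filter] at hϖ
      exact hϖ.2.mpr ((hall _ _ _).1 ((mem_fone_iff (by norm_num) q e e).mpr rfl)))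
    (fun q ω e he => by
      refine ⟨_, fun ϖ hϖ hacc => he ?_, hcor (fzero (abR 2 R) q ω) (qq q) (hne q) e⟩
      rw [mem_filter] at hϖ
      exact (mem_fzero_iff _ q ω e).mp ((hall _ _ _).2 (hϖ.2.mp hacc)))
    (t := t) (a := b) hb
    (fun q ω => by
      have := hcost (fzero (abR 2 R) q ω) (qq q) (hne q)
      rw [hfull] at this
      exact this)
    (L := 2 * L) (by omega) (κ := 1 / ((2 : ℕ) : ℝ)) (ρ := 1 / (R : ℝ)) (by norm_num)
    (by positivity)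
    (fun q q' hqq => card_not_al_abR q q' hqq) (by positivity) (by linarith)
    (card_full_abR hR) (W := R * L) (ε := (1 / 2 : ℝ) ^ L) (pow_decay (by norm_num))
    (fun ϖ c q => by
      refine le_trans (card_served_self fone (fzero (abR 2 R)) (al (abR 2 R))
        (fun F => (D ϖ).mem F (qq q) c) (hmono ϖ q c)
        (fun q ω q' e' h => fone_le_fzero _ q ω q' e' h) q (W := R * L)
        (by nlinarith) (ρ := 1 / (R : ℝ)) hR1 (by positivity) (card_not_al_self_abR hR q)) ?_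
      exact mul_le_mul_of_nonneg_right (pow_decay hR) (by positivity)) hδ
  rw [hGc] at key
  simp only [Fintype.card_prod, Fintype.card_sum, Fintype.card_fin, Fintype.card_fun] at key
  push_cast at key ⊢
  exact key

/-- The logarithm. -/
theorem exists_log {N r : ℕ} {δ : ℝ} (hN : 2 ≤ N) (hδ : 0 < δ) (hδ2 : δ ≤ 1 / 2) :
    ∃ L : ℕ, 1 ≤ L ∧ 8 * ((N : ℝ) ^ 2 + 2 * r) / δ ≤ 2 ^ L ∧
      (L : ℝ) ≤ 4 * Real.logb 2 ((N + r) / δ) ∧ 2 ≤ Real.logb 2 ((N + r) / δ) := by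
  have hNr : (2 : ℝ) ≤ N := by exact_mod_cast hN
  have hr : (0 : ℝ) ≤ r := by positivity
  have hNd : (4 : ℝ) ≤ (N + r) / δ := by rw [le_div_iff₀ hδ]; nlinarith
  have hlg : 2 ≤ Real.logb 2 ((N + r) / δ) := by
    rw [Real.le_logb_iff_rpow_le (by norm_num) (by linarith)]
    norm_num
    exact hNd
  have hpos : 0 < 8 * ((N : ℝ) ^ 2 + 2 * r) / δ := by positivity
  have h1 : Real.logb 2 (8 * ((N : ℝ) ^ 2 + 2 * r) / δ) ≤ 3 + 2 * Real.logb 2 ((N + r) / δ) := by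
    have h2 : 8 * ((N : ℝ) ^ 2 + 2 * r) / δ ≤ 8 * ((N + r) / δ) ^ 2 := by
      rw [div_pow, mul_div_assoc]
      apply mul_le_mul_of_nonneg_left _ (by norm_num)
      apply div_le_div₀ (by positivity) (by nlinarith) (by positivity) (by nlinarith)
    calc Real.logb 2 (8 * ((N : ℝ) ^ 2 + 2 * r) / δ) ≤ Real.logb 2 (8 * ((N + r) / δ) ^ 2) :=
          Real.logb_le_logb_of_le (by norm_num) hpos h2
      _ = 3 + 2 * Real.logb 2 ((N + r) / δ) := by
          rw [Real.logb_mul (by norm_num) (by positivity), Real.logb_pow]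
          have : Real.logb 2 8 = 3 := by
            rw [show (8 : ℝ) = 2 ^ (3 : ℝ) by norm_num, Real.logb_rpow (by norm_num) (by norm_num)]
          rw [this]; norm_num
  refine ⟨⌈Real.logb 2 (8 * ((N : ℝ) ^ 2 + 2 * r) / δ)⌉₊, ?_, ?_, ?_, hlg⟩
  · rw [Nat.one_le_ceil_iff]
    apply Real.logb_pos (by norm_num)
    rw [lt_div_iff₀ hδ]; nlinarith
  · have h3 : Real.logb 2 (8 * ((N : ℝ) ^ 2 + 2 * r) / δ) ≤
        (⌈Real.logb 2 (8 * ((N : ℝ) ^ 2 + 2 * r) / δ)⌉₊ : ℝ) := Nat.le_ceil _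
    rw [Real.logb_le_iff_le_rpow (by norm_num) hpos, Real.rpow_natCast] at h3
    exact h3
  · have h4 : (⌈Real.logb 2 (8 * ((N : ℝ) ^ 2 + 2 * r) / δ)⌉₊ : ℝ) <
        Real.logb 2 (8 * ((N : ℝ) ^ 2 + 2 * r) / δ) + 1 := by
      apply Nat.ceil_lt_add_one
      apply Real.logb_nonneg (by norm_num)
      rw [le_div_iff₀ hδ]; nlinarith
    linarith

/-- The bound in the main range. -/
theorem main_range {N n h s r L : ℕ} {δ t b : ℝ} (hδ : 0 < δ) (hδ2 : δ ≤ 1 / 2)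
    (ht : 1 ≤ t) (hb : 1 ≤ b) (hL : 1 ≤ L) (hLN : 8 * ((N : ℝ) ^ 2 + 2 * r) / δ ≤ 2 ^ L)
    (hs : (s : ℝ) ≤ N ^ 2)
    (hn1 : 8 * L * t / δ ≤ n) (hn2 : (n : ℝ) ≤ 9 * L * t / δ) (hh : 2 ≤ h)
    (hh1 : (N : ℝ) ≤ 4 * n * h) {Ω : Type} [Fintype Ω] (p : Ω → ℝ)
    (D : Ω → FreeDS (2 * h) n s r)
    (hp : ∀ ϖ, 0 ≤ p ϖ) (hp1 : ∑ ϖ, p ϖ = 1)
    (hcor : ∀ (F : Fin (2 * h) → Finset (Fin n)) (q : Fin (2 * h) × Fin (2 * h)), q.1 ≠ q.2 →
      ∀ e, 1 / 2 + δ ≤ ∑ ϖ with (e ∈ (D ϖ).out F q ↔ e ∈ F q.1 ∩ F q.2), p ϖ)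
    (hcost : ∀ (F : Fin (2 * h) → Finset (Fin n)) (q : Fin (2 * h) × Fin (2 * h)), q.1 ≠ q.2 →
      ∑ ϖ, p ϖ * (D ϖ).cost F q ≤ t + b * (F q.1 ∩ F q.2).card) :
    δ ^ 3 * (N : ℝ) ^ 2 ≤ 1296 * L ^ 3 * b * t * s := by
  set R : ℕ := ⌈8 * L * b / δ⌉₊ with hRdef
  have hLr : (1 : ℝ) ≤ L := by exact_mod_cast hL
  have h16 : (16 : ℝ) ≤ 8 * L * b / δ := by
    rw [le_div_iff₀ hδ]; nlinarith
  have hR1 : 8 * L * b / δ ≤ R := Nat.le_ceil _
  have hR2 : (R : ℝ) ≤ 9 * L * b / δ := by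
    have h1 : (R : ℝ) < 8 * L * b / δ + 1 := Nat.ceil_lt_add_one (by positivity)
    have h2 : 9 * L * b / δ = 8 * L * b / δ + L * b / δ := by ring
    have h3 : 1 ≤ L * b / δ := by rw [le_div_iff₀ hδ]; nlinarith
    linarith
  have hR16 : (16 : ℝ) ≤ R := le_trans h16 hR1
  have hRnat : 1 ≤ R := by
    have : (1 : ℝ) ≤ R := by linarith
    exact_mod_cast this
  have hRpos : (0 : ℝ) < R := by linarith
  have key := solves_core hh p D hδ.le (by linarith : (0 : ℝ) ≤ b) hp hp1 hcor hcost hL hRnat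
  have hnpos : (0 : ℝ) < n := by
    refine lt_of_lt_of_le ?_ hn1
    positivity
  -- the four error terms
  have e1 : 2 * δ * ((1 - 1 / (R : ℝ)) * n) ≥ 2 * δ * n - δ * n / 8 := by
    have h1 : 1 / (R : ℝ) ≤ 1 / 16 := by
      apply one_div_le_one_div_of_le (by norm_num) hR16
    have h2 : 0 ≤ δ * n := by positivity
    nlinarith [mul_le_mul_of_nonneg_left h1 h2]
  have e2 : (2 * L : ℕ) * t ≤ δ * n / 4 := by
    push_cast
    rw [div_le_iff₀ hδ] at hn1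
    linarith
  have e3 : ((2 * L : ℕ) : ℝ) * (b * (1 / (R : ℝ) * n)) ≤ δ * n / 4 := by
    push_cast
    have h1 : 8 * L * b ≤ R * δ := by rwa [div_le_iff₀ hδ] at hR1
    have h2 : 2 * (L : ℝ) * (b * (1 / (R : ℝ) * n)) = (8 * L * b) * n / (4 * R) := by
      field_simp; ring
    rw [h2, div_le_iff₀ (by positivity)]
    nlinarith [mul_le_mul_of_nonneg_right h1 hnpos.le]
  have e4 : (n : ℝ) * (s + 2 * r) * (1 / 2 : ℝ) ^ L ≤ δ * n / 8 := by
    have h0 : (1 / 2 : ℝ) ^ L = 1 / 2 ^ L := by rw [one_div_pow]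
    have h2L : (0 : ℝ) < 2 ^ L := by positivity
    rw [div_le_iff₀ hδ] at hLN
    rw [h0, mul_one_div, div_le_iff₀ h2L]
    have h3 : 8 * ((s : ℝ) + 2 * r) ≤ 2 ^ L * δ := by linarith
    nlinarith [mul_le_mul_of_nonneg_left h3 hnpos.le]
  have hbr : δ * n ≤ 2 * δ * ((1 - 1 / (R : ℝ)) * n)
      - (2 * L : ℕ) * (t + b * (1 / (R : ℝ) * n)) - n * (s + 2 * r) * (1 / 2 : ℝ) ^ L := by
    have h0 : 0 < δ * n := by positivity
    rw [mul_add]
    linarith
  have hk2 : (h : ℝ) ^ 2 * (δ * n) ≤ (R * L : ℕ) * s :=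
    le_trans (mul_le_mul_of_nonneg_left hbr (by positivity)) key
  have hRL : ((R * L : ℕ) : ℝ) * s ≤ 9 * L ^ 2 * b * s / δ := by
    push_cast
    calc (R : ℝ) * L * s ≤ (9 * L * b / δ) * L * s := by gcongr
      _ = 9 * L ^ 2 * b * s / δ := by ring
  have hk3 : (h : ℝ) ^ 2 * (δ * n) * δ ≤ 9 * L ^ 2 * b * s := by
    have := le_trans hk2 hRL
    rwa [le_div_iff₀ hδ] at this
  have hN2 : (N : ℝ) ^ 2 ≤ (4 * n * h) ^ 2 := pow_le_pow_left₀ (by positivity) hh1 2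
  have hk4 : δ ^ 2 * (N : ℝ) ^ 2 ≤ 144 * L ^ 2 * b * s * n := by
    have h1 : δ ^ 2 * (N : ℝ) ^ 2 ≤ δ ^ 2 * (4 * n * h) ^ 2 :=
      mul_le_mul_of_nonneg_left hN2 (by positivity)
    have h2 : δ ^ 2 * (4 * n * h) ^ 2 = 16 * n * ((h : ℝ) ^ 2 * (δ * n) * δ) := by ring
    have h3 : 16 * (n : ℝ) * ((h : ℝ) ^ 2 * (δ * n) * δ) ≤ 16 * n * (9 * L ^ 2 * b * s) :=
      mul_le_mul_of_nonneg_left hk3 (by positivity)
    calc δ ^ 2 * (N : ℝ) ^ 2 ≤ 16 * n * (9 * L ^ 2 * b * s) := by rw [h2] at h1; linarith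
      _ = 144 * L ^ 2 * b * s * n := by ring
  have hk5 : δ ^ 2 * (N : ℝ) ^ 2 ≤ 144 * L ^ 2 * b * s * (9 * L * t / δ) :=
    le_trans hk4 (mul_le_mul_of_nonneg_left hn2 (by positivity))
  have hk6 : 144 * (L : ℝ) ^ 2 * b * s * (9 * L * t / δ) = 1296 * L ^ 3 * b * t * s / δ := by ring
  rw [hk6, le_div_iff₀ hδ] at hk5
  calc δ ^ 3 * (N : ℝ) ^ 2 = δ ^ 2 * (N : ℝ) ^ 2 * δ := by ring
    _ ≤ _ := hk5

/-- **The lower bound.** -/
theorem lower {N r : ℕ} (hN : 2 ≤ N) {δ C T : ℝ} (hδ : 0 < δ) (hδ2 : δ ≤ 1 / 2) (hC : 1 ≤ C)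
    (hT : 1 ≤ T) (hNT : 144 * (C * T) * Real.logb 2 ((N + r) / δ) ≤ δ * N) :
    ∃ m n : ℕ, m * n ≤ N ∧ ∀ (s : ℕ) (Ω : Type) [Fintype Ω] (p : Ω → ℝ) (D : Ω → FreeDS m n s r),
      Solves p D δ C T →
        δ ^ 3 * (N : ℝ) ^ 2 ≤ 10 ^ 5 * C ^ 2 * T * s * (Real.logb 2 ((N + r) / δ)) ^ 3 := by
  obtain ⟨L, hL1, hL2, hL3, hlg⟩ := exists_log (r := r) hN hδ hδ2
  set lg := Real.logb 2 ((N + r) / δ) with hlgdef
  have hNr : (2 : ℝ) ≤ N := by exact_mod_cast hN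
  have hLr : (1 : ℝ) ≤ L := by exact_mod_cast hL1
  have hL3' : (L : ℝ) ^ 3 ≤ 64 * lg ^ 3 := by
    calc (L : ℝ) ^ 3 ≤ (4 * lg) ^ 3 := pow_le_pow_left₀ (by positivity) hL3 3
      _ = 64 * lg ^ 3 := by ring
  set t : ℝ := C * T with ht
  have ht1 : 1 ≤ t := by rw [ht]; nlinarith
  obtain ⟨n, hn⟩ : ∃ n, n = ⌈8 * L * t / δ⌉₊ := ⟨_, rfl⟩
  have hn1 : 8 * L * t / δ ≤ n := by rw [hn]; exact Nat.le_ceil _
  have hn0 : 0 < n := by
    have : (0 : ℝ) < n := lt_of_lt_of_le (by positivity) hn1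
    exact_mod_cast this
  have hn2 : (n : ℝ) ≤ 9 * L * t / δ := by
    have h1 : (n : ℝ) < 8 * L * t / δ + 1 := by rw [hn]; exact Nat.ceil_lt_add_one (by positivity)
    have h2 : 9 * L * t / δ = 8 * L * t / δ + L * t / δ := by ring
    have h3 : 1 ≤ L * t / δ := by rw [le_div_iff₀ hδ]; nlinarith
    linarith
  have h4n : 4 * n ≤ N := by
    have h1 : 4 * (n : ℝ) ≤ N := by
      calc 4 * (n : ℝ) ≤ 4 * (9 * L * t / δ) := by linarith
        _ = 36 * L * t / δ := by ring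
        _ ≤ N := by
            rw [div_le_iff₀ hδ]
            have h2 : (L : ℝ) * t ≤ 4 * lg * t := mul_le_mul_of_nonneg_right hL3 (by linarith)
            nlinarith
    exact_mod_cast h1
  obtain ⟨h, hhd⟩ : ∃ h, h = N / (2 * n) := ⟨_, rfl⟩
  have hh : 2 ≤ h := by
    rw [hhd, Nat.le_div_iff_mul_le (by omega)]
    omega
  have hmn : 2 * h * n ≤ N := by
    have := Nat.div_mul_le_self N (2 * n)
    calc 2 * h * n = N / (2 * n) * (2 * n) := by rw [hhd]; ring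
      _ ≤ N := this
  have hh1 : (N : ℝ) ≤ 4 * n * h := by
    have h1 : N < 2 * n * (h + 1) := by rw [hhd]; exact Nat.lt_mul_div_succ N (by omega)
    have h2 : 2 * n * (h + 1) ≤ 4 * n * h := by nlinarith
    have h3 : N ≤ 4 * n * h := by omega
    exact_mod_cast h3
  refine ⟨2 * h, n, hmn, ?_⟩
  intro s Ω _ p D hD
  obtain ⟨hp, hp1, hsol⟩ := hD
  have conv : δ ^ 3 * (N : ℝ) ^ 2 ≤ 1296 * L ^ 3 * C * t * s →
      δ ^ 3 * (N : ℝ) ^ 2 ≤ 10 ^ 5 * C ^ 2 * T * s * lg ^ 3 := by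
    intro hs
    refine le_trans hs ?_
    have h0 : (0 : ℝ) ≤ 1296 * C * t * s := by positivity
    calc 1296 * (L : ℝ) ^ 3 * C * t * s = (1296 * C * t * s) * L ^ 3 := by ring
      _ ≤ (1296 * C * t * s) * (64 * lg ^ 3) := mul_le_mul_of_nonneg_left hL3' h0
      _ = 82944 * (C ^ 2 * T * s * lg ^ 3) := by rw [ht]; ring
      _ ≤ 100000 * (C ^ 2 * T * s * lg ^ 3) := by
          apply mul_le_mul_of_nonneg_right (by norm_num)
          positivity
      _ = 10 ^ 5 * C ^ 2 * T * s * lg ^ 3 := by ring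
  apply conv
  by_cases hs : (s : ℝ) ≤ N ^ 2
  · exact main_range hδ hδ2 ht1 hC hL1 hL2 hs hn1 hn2 hh hh1 p D hp hp1
      (fun F q hq => (hsol F q hq).1)
      (fun F q hq => by
        have := (hsol F q hq).2
        rw [ht]; linarith)
  · push Not at hs
    have h1 : δ ^ 3 ≤ 1 := pow_le_one₀ hδ.le (by linarith)
    have h2 : (1 : ℝ) ≤ 1296 * L ^ 3 * C * t := by
      have : (1 : ℝ) ≤ L ^ 3 := one_le_pow₀ hLr
      have h3 : (1 : ℝ) ≤ L ^ 3 * C := by nlinarith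
      have h4 : (1 : ℝ) ≤ L ^ 3 * C * t := by nlinarith
      nlinarith
    have h5 : (0 : ℝ) ≤ s := by positivity
    nlinarith [mul_le_mul_of_nonneg_right h1 (by positivity : (0 : ℝ) ≤ (N : ℝ) ^ 2),
      mul_le_mul_of_nonneg_right h2 h5]

end Pool.Agent.T2H60.MH
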