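import Pool.Agent.T2H60.MH.Core
import Pool.Agent.H525R4.Mono.Random

set_option autoImplicit false

/-!
# Monotone data structures with free places: randomised structures with adaptive queries
-/

namespace Pool.Agent.T2H60.MH

open Finset Pool.Agent.H525R4.Mono

/-- **The main inequality** for randomised monotone data structures with adaptive queries.
`acc ϖ q e M` says that the structure `ϖ` reports the element `e` for the query `q` when the
contents of the cells are `M`; `reads ϖ q M` are the cells read. -/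
theorem random_core' {X C Q E B Ω : Type} [Preorder X] [Fintype C] [Fintype Q] [Fintype E] [DecidableEq E]
    [Fintype B] [Fintype Ω] [Nonempty Q] [Nonempty B]
    (one : Q → E → X) (zero : Q → (E → B) → X) (al : Q → Q → B → Prop) (full : B → Prop)
    [∀ q q', DecidablePred (al q q')] [DecidablePred full]
    (p : Ω → ℝ) (hp : ∀ ϖ, 0 ≤ p ϖ) (hp1 : ∑ ϖ : Ω, p ϖ = 1)
    (G : Finset C)
    (cell : Ω → Q → C → X → ℝ) (hcell : ∀ ϖ q c, Monotone (cell ϖ q c))
    (hG : ∀ ϖ, ∀ c ∈ G, ∀ q q', cell ϖ q c = cell ϖ q' c)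
    (hfree : ∀ ϖ q, ∀ c ∉ G, ∃ q', q ≠ q' ∧ ∀ e, cell ϖ q c (one q e) ≤ cell ϖ q c (one q' e))
    (reads : Ω → Q → (C → ℝ) → Finset C)
    (acc : Ω → Q → E → (C → ℝ) → Prop)
    (hacc : ∀ ϖ q e M M', M ≤ M' → acc ϖ q e M → acc ϖ q e M')
    (hdet : ∀ ϖ q e M M', (∀ c ∈ reads ϖ q M, M' c = M c) → acc ϖ q e M' → acc ϖ q e M)
    (hle : ∀ q ω q' e', al q q' (ω e') → one q' e' ≤ zero q ω)
    {δ : ℝ} (hone : ∀ q e, ∃ A : Finset Ω, (∀ ϖ ∈ A, acc ϖ q e (fun c => cell ϖ q c (one q e))) ∧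
      1 / 2 + δ ≤ ∑ ϖ ∈ A, p ϖ)
    (hzero : ∀ q ω e, ¬ full (ω e) →
      ∃ A : Finset Ω, (∀ ϖ ∈ A, ¬ acc ϖ q e (fun c => cell ϖ q c (zero q ω))) ∧
        1 / 2 + δ ≤ ∑ ϖ ∈ A, p ϖ)
    {t a : ℝ} (ha : 0 ≤ a)
    (hcost : ∀ q ω, ∑ ϖ : Ω, p ϖ * ((reads ϖ q (fun c => cell ϖ q c (zero q ω))).card : ℝ)
      ≤ t + a * ((univ.filter fun e => full (ω e)).card : ℝ))
    {L : ℕ} (hL : 1 ≤ L) {κ ρ : ℝ} (hκ0 : 0 ≤ 1 - κ) (hκ1 : 0 ≤ κ)
    (hκ : ∀ q q', q ≠ q' →
      ((univ.filter fun β => ¬ al q q' β).card : ℝ) ≤ (1 - κ) * Fintype.card B)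
    (hρ0 : 0 ≤ ρ) (hρ1 : ρ ≤ 1)
    (hρ : ((univ.filter fun β => full β).card : ℝ) ≤ ρ * Fintype.card B)
    {W : ℕ} {ε : ℝ} (hε : (1 - κ) ^ L ≤ ε)
    (hW : ∀ ϖ c q,
      ((univ.filter fun ω : E → B => W < (served (cell ϖ q c) one q (zero q ω)).card).card : ℝ)
        ≤ ε * Fintype.card (E → B)) (hδ : 0 ≤ δ) :
    Fintype.card Q * (2 * δ * ((1 - ρ) * Fintype.card E) - L * (t + a * (ρ * Fintype.card E))
      - Fintype.card E * Fintype.card C * ε) ≤ W * G.card := by
  classical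
  set cB : ℝ := (Fintype.card (E → B) : ℝ) with hcB
  have hcBpos : 0 < cB := by
    rw [hcB]; exact_mod_cast Fintype.card_pos
  -- elements served by the cells read
  let sv : Ω → Q → (E → B) → Finset E := fun ϖ q ω => univ.filter fun e =>
    ∃ c ∈ reads ϖ q (fun c => cell ϖ q c (zero q ω)), cell ϖ q c (zero q ω) < cell ϖ q c (one q e)
  have hsv : ∀ ϖ q ω e, acc ϖ q e (fun c => cell ϖ q c (one q e)) →
      ¬ acc ϖ q e (fun c => cell ϖ q c (zero q ω)) → e ∈ sv ϖ q ω := by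
    intro ϖ q ω e h1 h0
    simp only [sv, mem_filter, mem_univ, true_and]
    by_contra hcon
    push Not at hcon
    apply h0
    let M' : C → ℝ := fun c => max (cell ϖ q c (one q e)) (cell ϖ q c (zero q ω))
    have hM' : acc ϖ q e M' := hacc ϖ q e _ M' (fun c => le_max_left _ _) h1
    refine hdet ϖ q e _ M' (fun c hc => ?_) hM'
    exact max_eq_right (hcon c hc)
  -- upper bound for each structure
  have hup : ∀ ϖ, ∑ q : Q, ∑ ω : E → B, ((sv ϖ q ω).card : ℝ)
      ≤ L * ∑ q : Q, ∑ ω : E → B, ((reads ϖ q (fun c => cell ϖ q c (zero q ω))).card : ℝ)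
        + (W * G.card + Fintype.card Q * Fintype.card E * Fintype.card C * ε) * cB := by
    intro ϖ
    have := MH.sum_served_le one zero al G (cell ϖ) (hcell ϖ) (hG ϖ) (hfree ϖ) hle hL hκ0 hκ1 hκ hε
      (hW ϖ)
      (fun q ω => reads ϖ q (fun c => cell ϖ q c (zero q ω)))
    exact this
  have hup2 : ∑ ϖ : Ω, p ϖ * ∑ q : Q, ∑ ω : E → B, ((sv ϖ q ω).card : ℝ)
      ≤ L * ∑ _q : Q, ∑ ω : E → B, (t + a * ((univ.filter fun e => full (ω e)).card : ℝ))
        + (W * G.card + Fintype.card Q * Fintype.card E * Fintype.card C * ε) * cB := by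
    calc ∑ ϖ : Ω, p ϖ * ∑ q : Q, ∑ ω : E → B, ((sv ϖ q ω).card : ℝ)
        ≤ ∑ ϖ : Ω, p ϖ * (L * ∑ q : Q, ∑ ω : E → B, ((reads ϖ q (fun c => cell ϖ q c (zero q ω))).card : ℝ)
        + (W * G.card + Fintype.card Q * Fintype.card E * Fintype.card C * ε) * cB) :=
          sum_le_sum fun ϖ _ => mul_le_mul_of_nonneg_left (hup ϖ) (hp ϖ)
      _ = L * ∑ q : Q, ∑ ω : E → B, ∑ ϖ : Ω, p ϖ * ((reads ϖ q (fun c => cell ϖ q c (zero q ω))).card : ℝ)
        + (W * G.card + Fintype.card Q * Fintype.card E * Fintype.card C * ε) * cB := by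
          simp only [mul_add, sum_add_distrib]
          rw [← sum_mul, hp1, one_mul]
          congr 1
          simp only [mul_sum]
          rw [sum_comm]
          apply sum_congr rfl; intro q _
          rw [sum_comm]
          apply sum_congr rfl; intro ω _
          apply sum_congr rfl; intro ϖ _
          ring
      _ ≤ _ := by
          have h3 : (0 : ℝ) ≤ L := by positivity
          have := mul_le_mul_of_nonneg_left
            (sum_le_sum fun q (_ : q ∈ (univ : Finset Q)) =>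
              sum_le_sum fun ω (_ : ω ∈ (univ : Finset (E → B))) => hcost q ω) h3
          linarith
  -- lower bound
  have hlow : ∀ q (ω : E → B), 2 * δ * ((Fintype.card E : ℝ)
        - ((univ.filter fun e => full (ω e)).card : ℝ))
      ≤ ∑ ϖ : Ω, p ϖ * ((sv ϖ q ω).card : ℝ) := by
    intro q ω
    have h1 : ∀ ϖ, p ϖ * ((sv ϖ q ω).card : ℝ)
        = ∑ e : E, if e ∈ sv ϖ q ω then p ϖ else 0 := by
      intro ϖ
      rw [sum_ite_mem, univ_inter, sum_const, nsmul_eq_mul, mul_comm]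
    rw [sum_congr rfl fun ϖ _ => h1 ϖ, sum_comm]
    have h2 : ∀ e : E, (if full (ω e) then (0 : ℝ) else 2 * δ)
        ≤ ∑ ϖ : Ω, if e ∈ sv ϖ q ω then p ϖ else 0 := by
      intro e
      by_cases hf : full (ω e)
      · simp only [hf, if_true]
        exact sum_nonneg fun ϖ _ => by split_ifs; exacts [hp ϖ, le_rfl]
      · simp only [hf, if_false]
        obtain ⟨A, hA1, hA2⟩ := hone q e
        obtain ⟨A', hA'1, hA'2⟩ := hzero q ω e hf
        have h3 : ∑ ϖ ∈ A ∩ A', p ϖ ≤ ∑ ϖ : Ω, if e ∈ sv ϖ q ω then p ϖ else 0 := by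
          calc ∑ ϖ ∈ A ∩ A', p ϖ = ∑ ϖ ∈ A ∩ A', (if e ∈ sv ϖ q ω then p ϖ else 0) := by
                apply sum_congr rfl
                intro ϖ hϖ
                rw [mem_inter] at hϖ
                rw [if_pos (hsv ϖ q ω e (hA1 ϖ hϖ.1) (hA'1 ϖ hϖ.2))]
            _ ≤ _ := sum_le_sum_of_subset_of_nonneg (subset_univ _)
                (fun ϖ _ _ => by split_ifs; exacts [hp ϖ, le_rfl])
        have h4 : ∑ ϖ ∈ A ∪ A', p ϖ ≤ 1 := by
          rw [← hp1]
          exact sum_le_sum_of_subset_of_nonneg (subset_univ _) (fun ϖ _ _ => hp ϖ)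
        have h5 := sum_union_inter (s₁ := A) (s₂ := A') (f := p)
        linarith
    refine le_trans (le_of_eq ?_) (sum_le_sum fun e _ => h2 e)
    have h6 : ((univ.filter fun e => full (ω e)).card : ℝ)
        + ((univ.filter fun e => ¬ full (ω e)).card : ℝ) = Fintype.card E := by
      have := card_filter_add_card_filter_not (s := (univ : Finset E)) (p := fun e => full (ω e))
      rw [card_univ] at this
      exact_mod_cast this
    have h7 : ∑ e : E, (if full (ω e) then (0 : ℝ) else 2 * δ)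
        = 2 * δ * ((univ.filter fun e => ¬ full (ω e)).card : ℝ) := by
      rw [sum_ite, sum_const_zero, zero_add, sum_const, nsmul_eq_mul, mul_comm]
    rw [h7, ← h6]; ring
  have hlow2 : Fintype.card Q * (2 * δ * ((1 - ρ) * Fintype.card E)) * cB
      ≤ ∑ ϖ : Ω, p ϖ * ∑ q : Q, ∑ ω : E → B, ((sv ϖ q ω).card : ℝ) := by
    have h1 : ∑ ϖ : Ω, p ϖ * ∑ q : Q, ∑ ω : E → B, ((sv ϖ q ω).card : ℝ)
        = ∑ q : Q, ∑ ω : E → B, ∑ ϖ : Ω, p ϖ * ((sv ϖ q ω).card : ℝ) := by
      simp only [mul_sum]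
      rw [sum_comm]
      apply sum_congr rfl; intro q _
      rw [sum_comm]
    rw [h1]
    refine le_trans ?_ (sum_le_sum fun q _ => sum_le_sum fun ω _ => hlow q ω)
    rw [sum_const, card_univ, nsmul_eq_mul, mul_assoc]
    apply mul_le_mul_of_nonneg_left _ (by positivity)
    rw [← mul_sum, sum_sub_distrib, sum_const, card_univ, nsmul_eq_mul]
    have h2 := sum_card_label (E := E) full hρ0 hρ1 hρ
    rw [← hcB] at h2 ⊢
    have h3 : (0 : ℝ) ≤ 2 * δ := by linarith
    have h4 := mul_le_mul_of_nonneg_left h2 h3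
    nlinarith [h4]
  have hup3 : ∑ _q : Q, ∑ ω : E → B, (t + a * ((univ.filter fun e => full (ω e)).card : ℝ))
      ≤ Fintype.card Q * (t + a * (ρ * Fintype.card E)) * cB := by
    rw [sum_const, card_univ, nsmul_eq_mul, mul_assoc]
    apply mul_le_mul_of_nonneg_left _ (by positivity)
    rw [sum_add_distrib, sum_const, card_univ, nsmul_eq_mul, ← mul_sum]
    have h2 := mul_le_mul_of_nonneg_left (sum_card_label (E := E) full hρ0 hρ1 hρ) ha
    rw [← hcB] at h2 ⊢
    nlinarith [h2]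
  have hfin := le_trans hlow2 (le_trans hup2 (add_le_add_left
    (mul_le_mul_of_nonneg_left hup3 (by positivity : (0 : ℝ) ≤ L)) _))
  have hdiv : (Fintype.card Q * (2 * δ * ((1 - ρ) * Fintype.card E)
      - L * (t + a * (ρ * Fintype.card E)) - Fintype.card E * Fintype.card C * ε)) * cB
      ≤ (W * G.card) * cB := by
    nlinarith [hfin]
  exact le_of_mul_le_mul_right hdiv hcBpos

end Pool.Agent.T2H60.MH
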